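import Pool.Agent.J6H88.GC.Multi
import Pool.Agent.J6H88.JO.Core

/-!
# Positive determinants and hyperinvariant subspaces
-/

set_option autoImplicit false
open scoped ComplexConjugate InnerProductSpace Topology ComplexOrder
open Filter MeasureTheory NormedSpace

namespace Pool.Agent.J6H88.GC
open Pool.Agent.H712R5.BO
open Pool.Agent.J6H88.JO
open Pool.Agent.W611.RO (HasHyp)

/-- if the determinant of `T - τ T` is positive, the method of Haagerup and Schultz applies -/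
theorem hyp_of_pos (Y : Type) [MeasurableSpace Y] (ν : Measure Y) [IsProbabilityMeasure ν]
    (J : Type) [Countable J] (H : Type) [NormedAddCommGroup H] [InnerProductSpace ℂ H]
    [CompleteSpace H] (A : Type) [CStarAlgebra A] (τ : A →L[ℂ] ℂ)
    (e : Y → (A →⋆ₐ[ℂ] (H →L[ℂ] H))) (w : J → H) (v : H) (hτ : TrSt τ) (hv : ‖v‖ = 1)
    (hw : ∀ x : H, (∀ r, ⟪x, w r⟫_ℂ = 0) → x = 0)
    (hmeas : ∀ (a : A) (x : H), Measurable (fun y => ‖e y a x‖))
    (htau : ∀ a : A, Integrable (fun y => ⟪v, e y a v⟫_ℂ) ν ∧ τ a = ∫ y, ⟪v, e y a v⟫_ℂ ∂ν)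
    (hn2 : ∀ (a : A) (r : J), Integrable (fun y => ‖e y a (w r)‖ ^ 2) ν ∧
      ∫ y, ‖e y a (w r)‖ ^ 2 ∂ν ≤ (n2 τ a) ^ 2)
    (h01 : ∀ (B : ℕ → A) (R : ℝ), (∀ i, ‖B i‖ ≤ R) →
      (∀ᵐ y ∂ν, ¬ ∃ c : ℂ, ∀ x : H, Tendsto (fun i => e y (B i) x) atTop (𝓝 (c • x))) ∨
      (∃ c : ℂ, ∀ᵐ y ∂ν, ∀ x : H, Tendsto (fun i => e y (B i) x) atTop (𝓝 (c • x))))
    (T : A) (hT : Pos τ (T - τ T • (1 : A))) : ∀ᵐ y ∂ν, HasHyp (e y T) := by
  obtain ⟨C, hC⟩ := hT
  set s : ℂ := ((Real.exp (-C / 2) : ℝ) : ℂ) with hs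
  have hs0 : s ≠ 0 := by
    rw [hs]
    exact_mod_cast (Real.exp_pos _).ne'
  have hsn : Real.log (‖s‖ ^ 2) = -C := by
    rw [hs, Complex.norm_real, Real.norm_eq_abs, abs_of_pos (Real.exp_pos _), Real.log_pow,
      Real.log_exp]
    push_cast
    ring
  have h0 : ∀ δ : ℝ, 0 < δ → 0 ≤ ld τ (algebraMap ℝ A δ
      + star (s • T - τ (s • T) • (1 : A)) * (s • T - τ (s • T) • (1 : A))) := by
    intro δ hδ
    have e1 : s • T - τ (s • T) • (1 : A) = s • (T - τ T • (1 : A)) := by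
      rw [map_smul, smul_sub, smul_smul, smul_eq_mul]
    rw [e1, ld_smul τ hτ _ s hs0 δ hδ, hsn]
    have := hC (δ / ‖s‖ ^ 2) (by positivity)
    linarith
  have hpow : ∀ (k : ℕ) (δ : ℝ), 1 ≤ k → 0 < δ → 0 ≤ (τ (CFC.log (algebraMap ℝ A δ
      + star ((s • T - τ (s • T) • (1 : A)) ^ k) * (s • T - τ (s • T) • (1 : A)) ^ k))).re := by
    intro k δ _ hδ
    let _ := CStarAlgebra.spectralOrder A
    have := CStarAlgebra.spectralOrderedRing A
    have h1 := ld_pow τ hτ (s • T - τ (s • T) • (1 : A)) 0 h0 k δ hδ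
    rwa [mul_zero] at h1
  have hmain := Pool.Agent.W338.RO.t_ABS Y ν J H A τ e w v hτ hv hw hmeas htau hn2 h01 (s • T) hpow
  filter_upwards [hmain] with y hy
  rw [map_smul] at hy
  exact Pool.Agent.W253.RO.hasHyp_of_smul _ _ hy

section
variable {H : Type} [NormedAddCommGroup H] [InnerProductSpace ℂ H] [CompleteSpace H]

/-- the norm closure of a *-algebra of operators -/
noncomputable def Cl (N : StarSubalgebra ℂ (H →L[ℂ] H)) : StarSubalgebra ℂ (H →L[ℂ] H) :=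
  N.topologicalClosure

instance isClosed_Cl (N : StarSubalgebra ℂ (H →L[ℂ] H)) :
    IsClosed ((Cl N : StarSubalgebra ℂ (H →L[ℂ] H)) : Set (H →L[ℂ] H)) :=
  StarSubalgebra.isClosed_topologicalClosure _

noncomputable instance CSCl (N : StarSubalgebra ℂ (H →L[ℂ] H)) : CStarAlgebra (Cl N) :=
  StarSubalgebra.cstarAlgebra (Cl N)

/-- the inclusion -/
noncomputable def inc (N : StarSubalgebra ℂ (H →L[ℂ] H)) : Cl N →⋆ₐ[ℂ] (H →L[ℂ] H) := (Cl N).subtype

theorem inc_apply (N : StarSubalgebra ℂ (H →L[ℂ] H)) (a : Cl N) : inc N a = (a : H →L[ℂ] H) := rfl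

theorem inc_cont (N : StarSubalgebra ℂ (H →L[ℂ] H)) : Continuous (inc N) := continuous_subtype_val

/-- the vector state -/
noncomputable def vst (N : StarSubalgebra ℂ (H →L[ℂ] H)) (v : H) : Cl N →L[ℂ] ℂ :=
  (innerSL ℂ v).comp ((ContinuousLinearMap.apply ℂ H v).comp
    ⟨(inc N).toAlgHom.toLinearMap, inc_cont N⟩)

theorem vst_apply (N : StarSubalgebra ℂ (H →L[ℂ] H)) (v : H) (a : Cl N) :
    vst N v a = ⟪v, (a : H →L[ℂ] H) v⟫_ℂ := rfl

theorem vst_sq (N : StarSubalgebra ℂ (H →L[ℂ] H)) (v : H) (c : Cl N) :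
    (vst N v (star c * c)).re = ‖(c : H →L[ℂ] H) v‖ ^ 2 := by
  rw [vst_apply]
  show (⟪v, star (c : H →L[ℂ] H) ((c : H →L[ℂ] H) v)⟫_ℂ).re = _
  rw [ContinuousLinearMap.star_eq_adjoint, ContinuousLinearMap.adjoint_inner_right,
    inner_self_eq_norm_sq_to_K]
  norm_cast

theorem vst_tr (N : StarSubalgebra ℂ (H →L[ℂ] H)) (v : H) (hv : ‖v‖ = 1)
    (htr : ∀ a ∈ N, ∀ b ∈ N, ⟪v, a (b v)⟫_ℂ = ⟪v, b (a v)⟫_ℂ) : TrSt (vst N v) := by
  have h1 : ∀ a ∈ Cl N, ∀ b ∈ N, ⟪v, a (b v)⟫_ℂ = ⟪v, b (a v)⟫_ℂ := by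
    intro a ha b hb
    have hcl : IsClosed {a : H →L[ℂ] H | ⟪v, a (b v)⟫_ℂ = ⟪v, b (a v)⟫_ℂ} :=
      isClosed_eq (by fun_prop) (by fun_prop)
    exact closure_minimal (s := (N : Set (H →L[ℂ] H))) (fun a ha => htr a ha b hb) hcl ha
  have h2 : ∀ a ∈ Cl N, ∀ b ∈ Cl N, ⟪v, a (b v)⟫_ℂ = ⟪v, b (a v)⟫_ℂ := by
    intro a ha b hb
    have hcl : IsClosed {b : H →L[ℂ] H | ⟪v, a (b v)⟫_ℂ = ⟪v, b (a v)⟫_ℂ} :=
      isClosed_eq (by fun_prop) (by fun_prop)
    exact closure_minimal (s := (N : Set (H →L[ℂ] H))) (fun b hb => h1 a ha b hb) hcl hb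
  refine ⟨?_, fun a => ?_, fun a => ?_, fun a b => ?_⟩
  · rw [vst_apply]
    show ⟪v, v⟫_ℂ = 1
    rw [inner_self_eq_norm_sq_to_K, hv]
    simp
  · rw [vst_sq]
    positivity
  · rw [vst_apply, vst_apply]
    show ⟪v, star (a : H →L[ℂ] H) v⟫_ℂ = _
    rw [ContinuousLinearMap.star_eq_adjoint, ContinuousLinearMap.adjoint_inner_right, inner_conj_symm]
  · rw [vst_apply, vst_apply]
    exact h2 a a.2 b b.2

theorem log_cl (N : StarSubalgebra ℂ (H →L[ℂ] H)) (S : Cl N) (δ : ℝ) (hδ : 0 < δ) :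
    ((CFC.log (algebraMap ℝ (Cl N) δ + star S * S) : Cl N) : H →L[ℂ] H)
      = CFC.log (algebraMap ℝ (H →L[ℂ] H) δ + star (S : H →L[ℂ] H) * (S : H →L[ℂ] H)) := by
  have hsa := Pool.Agent.W116.RO.Mono.sa δ S
  have hco : ContinuousOn Real.log (spectrum ℝ (algebraMap ℝ (Cl N) δ + star S * S)) := by
    refine Real.continuousOn_log.mono fun x hx => ?_
    exact sp δ hδ S x hx
  have h := StarAlgHomClass.map_cfc (S := ℂ) (inc N) Real.log _ hco (inc_cont N) hsa (hsa.map _)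
  exact h

/-- the theorem for a *-algebra of operators with a cyclic trace vector -/
theorem hyp_bh [TopologicalSpace.SeparableSpace H] (N : StarSubalgebra ℂ (H →L[ℂ] H)) (v : H)
    (hv : ‖v‖ = 1) (htr : ∀ a ∈ N, ∀ b ∈ N, ⟪v, a (b v)⟫_ℂ = ⟪v, b (a v)⟫_ℂ)
    (hcyc : ∀ x : H, (∀ a ∈ N, ⟪x, a v⟫_ℂ = 0) → x = 0) (T : Cl N)
    (hT : Pos (vst N v) (T - vst N v T • (1 : Cl N))) : HasHyp (T : H →L[ℂ] H) := by
  have hτ := vst_tr N v hv htr
  -- a countable family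
  set W : Set H := {x | ∃ b ∈ N, ‖b‖ ≤ 1 ∧ x = b v} with hW
  have hWne : W.Nonempty := ⟨(1 : H →L[ℂ] H) v, 1, N.one_mem, ContinuousLinearMap.norm_id_le, rfl⟩
  have : Nonempty W := hWne.to_subtype
  obtain ⟨u, hu⟩ := TopologicalSpace.exists_dense_seq W
  have hmain := hyp_of_pos Unit (Measure.dirac ()) ℕ H (Cl N) (vst N v) (fun _ => inc N)
    (fun r => (u r : H)) v hτ hv (by
      intro x hx
      have h1 : ∀ y : W, ⟪x, (y : H)⟫_ℂ = 0 := by
        intro y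
        have hcl : IsClosed {y : W | ⟪x, (y : H)⟫_ℂ = 0} := isClosed_eq (by fun_prop) (by fun_prop)
        have h2 : Set.range u ⊆ {y : W | ⟪x, (y : H)⟫_ℂ = 0} := by
          rintro _ ⟨r, rfl⟩
          exact hx r
        have h3 := closure_minimal h2 hcl
        rw [hu.closure_range] at h3
        exact h3 (Set.mem_univ y)
      refine hcyc x fun a ha => ?_
      have h4 : (0 : ℝ) < ‖a‖ + 1 := by positivity
      have h5 : ((((‖a‖ + 1)⁻¹ : ℝ) : ℂ) • a) v ∈ W := by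
        refine ⟨_, N.smul_mem ha _, ?_, rfl⟩
        rw [norm_smul, Complex.norm_real, Real.norm_eq_abs, abs_of_pos (inv_pos.2 h4),
          inv_mul_le_iff₀ h4]
        linarith
      have h6 : ⟪x, ((((‖a‖ + 1)⁻¹ : ℝ) : ℂ) • a) v⟫_ℂ = 0 := h1 ⟨_, h5⟩
      rw [_root_.smul_apply, inner_smul_right] at h6
      rcases mul_eq_zero.1 h6 with h7 | h7
      · exact absurd h7 (by exact_mod_cast (inv_pos.2 h4).ne')
      · exact h7)
    (fun a x => measurable_from_top) (fun a => ⟨integrable_const _, by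
      rw [integral_const, vst_apply]
      simp [inc_apply]⟩)
    (fun a r => ⟨integrable_const _, by
      rw [integral_const]
      simp only [probReal_univ, smul_eq_mul, one_mul, inc_apply]
      obtain ⟨b, hb, hb1, hbv⟩ := (u r).2
      rw [hbv]
      -- `‖a b v‖² = τ (b* a* a b) = τ (a b b* a*) ≤ τ (a a*) = τ (a* a)`
      set b' : Cl N := ⟨b, StarSubalgebra.le_topologicalClosure _ hb⟩ with hb'
      have e1 := vst_sq N v (a * b')
      have e2 := vst_sq N v (star (a * b'))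
      have e3 := vst_sq N v (star a)
      have e4 := vst_sq N v a
      rw [star_star, hτ.tr, e1] at e2
      rw [star_star, hτ.tr, e4] at e3
      have e5 : ((a * b' : Cl N) : H →L[ℂ] H) v = (a : H →L[ℂ] H) (b v) := rfl
      have e6 : ((star (a * b') : Cl N) : H →L[ℂ] H) v
          = star b (((star a : Cl N) : H →L[ℂ] H) v) := by
        rw [star_mul]
        rfl
      have e7 : ‖star b (((star a : Cl N) : H →L[ℂ] H) v)‖ ≤ ‖((star a : Cl N) : H →L[ℂ] H) v‖ := by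
        refine ((star b).le_opNorm _).trans ?_
        rw [norm_star]
        exact mul_le_of_le_one_left (norm_nonneg _) hb1
      have e8 : n2 (vst N v) a ^ 2 = ‖(a : H →L[ℂ] H) v‖ ^ 2 := by
        unfold n2
        rw [e4, Real.sq_sqrt (by positivity)]
      rw [e8, e3, ← e5, e2, e6]
      exact pow_le_pow_left₀ (norm_nonneg _) e7 2⟩)
    (fun B R hB => by
      by_cases h : ∃ c : ℂ, ∀ x : H, Tendsto (fun i => inc N (B i) x) atTop (𝓝 (c • x))
      · right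
        obtain ⟨c, hc⟩ := h
        exact ⟨c, Eventually.of_forall fun _ => hc⟩
      · left
        exact Eventually.of_forall fun _ => h) T hT
  rw [ae_dirac_eq] at hmain
  exact hmain

end

end Pool.Agent.J6H88.GC
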