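import Pool.Agent.J6H88.JO.Alg
import Pool.Agent.W116.RO.Mono
import Pool.Agent.W636.RO.M1
import Pool.Agent.W405.RO.M2

/-!
# Means over circles of logarithmic determinants

For a polynomial `p(w) = ∑ w^j c_j` with coefficients in a tracial C*-algebra the mean of
`τ log (δ + |p(w)|²)` over the circle is at least the value at the centre.  This is the theorem on rotation
invariant families for the algebra of continuous functions on the circle.
-/

set_option autoImplicit false
open scoped ComplexConjugate InnerProductSpace Topology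
open Filter MeasureTheory NormedSpace

namespace Pool.Agent.J6H88.GC
open Pool.Agent.H712R5.BO
open Pool.Agent.J6H88.JO

/-- the circle with its Haar measure -/
abbrev Ci : Type := UnitAddCircle

/-- `exp (2 π i θ)` -/
noncomputable def ee (θ : Ci) : ℂ := (AddCircle.toCircle θ : Circle)

theorem ee_cont : Continuous ee := by
  unfold ee
  exact Continuous.comp (by exact continuous_subtype_val) AddCircle.continuous_toCircle

theorem ee_norm (θ : Ci) : ‖ee θ‖ = 1 := Circle.norm_coe _

theorem ee_add (θ φ : Ci) : ee (θ + φ) = ee θ * ee φ := by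
  unfold ee
  rw [AddCircle.toCircle_add, Circle.coe_mul]

theorem ee_coe (x : ℝ) : ee (x : Ci) = Complex.exp (2 * Real.pi * x * Complex.I) := by
  unfold ee
  rw [AddCircle.toCircle_apply_mk, Circle.coe_exp]
  congr 1
  push_cast
  ring

/-- the measure -/
noncomputable abbrev mu : Measure Ci := AddCircle.haarAddCircle

section
variable {A : Type} [CStarAlgebra A]

/-- the C*-algebra of continuous functions on the circle with values in `A` -/
def CA (A : Type) [CStarAlgebra A] : Type := C(Ci, A)

noncomputable instance : CStarAlgebra (CA A) := inferInstanceAs (CStarAlgebra C(Ci, A))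

/-- the underlying function -/
def toC (f : CA A) : C(Ci, A) := f

/-- evaluation at `θ` -/
noncomputable def evC (θ : Ci) : CA A →⋆ₐ[ℂ] A where
  toFun f := toC f θ
  map_one' := rfl
  map_mul' _ _ := rfl
  map_zero' := rfl
  map_add' _ _ := rfl
  commutes' _ := rfl
  map_star' _ := rfl

/-- a continuous function as an element of the algebra -/
def mk (f : C(Ci, A)) : CA A := f

theorem evC_mk (θ : Ci) (f : C(Ci, A)) : evC θ (mk f) = f θ := rfl

theorem evC_cont (θ : Ci) : Continuous (evC (A := A) θ) := by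
  have h : Continuous fun f : C(Ci, A) => f θ := by fun_prop
  exact h

theorem ev_cont' (f : CA A) : Continuous fun θ => evC θ f := ContinuousMap.continuous (f : C(Ci, A))

theorem evC_norm (θ : Ci) (f : CA A) : ‖evC θ f‖ ≤ ‖f‖ :=
  ContinuousMap.norm_coe_le_norm (f : C(Ci, A)) θ

theorem int_tau (τ : A →L[ℂ] ℂ) (f : CA A) : Integrable (fun θ => τ (evC θ f)) mu :=
  (τ.continuous.comp (ev_cont' f)).integrable_of_hasCompactSupport (HasCompactSupport.of_compactSpace _)

/-- the trace on the algebra of continuous functions -/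
noncomputable def trC (τ : A →L[ℂ] ℂ) : CA A →L[ℂ] ℂ :=
  LinearMap.mkContinuous
    { toFun := fun f => ∫ θ, τ (evC θ f) ∂mu
      map_add' := fun f g => by
        rw [← integral_add (int_tau τ f) (int_tau τ g)]
        refine integral_congr_ae (Eventually.of_forall fun θ => ?_)
        simp only [map_add]
      map_smul' := fun c f => by
        simp only [map_smul, RingHom.id_apply]
        exact integral_const_mul (μ := mu) c (fun θ => τ (evC θ f)) }
    ‖τ‖ (fun f => by
      refine (norm_integral_le_of_norm_le_const (μ := mu) (C := ‖τ‖ * ‖f‖)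
        (Eventually.of_forall fun θ => ?_)).trans ?_
      · exact (τ.le_opNorm _).trans (mul_le_mul_of_nonneg_left (evC_norm θ f) (norm_nonneg _))
      · simp)

theorem trC_apply (τ : A →L[ℂ] ℂ) (f : CA A) : trC τ f = ∫ θ, τ (evC θ f) ∂mu := rfl

theorem trC_trst (τ : A →L[ℂ] ℂ) (hτ : TrSt τ) : TrSt (trC τ) := by
  refine ⟨?_, fun a => ?_, fun a => ?_, fun a b => ?_⟩
  · rw [trC_apply]
    simp only [map_one, hτ.one]
    simp
  · rw [trC_apply]
    rw [← RCLike.re_eq_complex_re, ← integral_re (int_tau τ _)]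
    refine integral_nonneg fun θ => ?_
    simp only [map_mul, map_star]
    exact hτ.pos (evC θ a)
  · rw [trC_apply, trC_apply, ← integral_conj]
    refine integral_congr_ae (Eventually.of_forall fun θ => ?_)
    simp only [map_star]
    exact hτ.herm (evC θ a)
  · rw [trC_apply, trC_apply]
    refine integral_congr_ae (Eventually.of_forall fun θ => ?_)
    simp only [map_mul]
    exact hτ.tr (evC θ a) (evC θ b)

theorem log_ev (f : CA A) (δ : ℝ) (hδ : 0 < δ) (θ : Ci) :
    evC θ (CFC.log (algebraMap ℝ (CA A) δ + star f * f))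
      = CFC.log (algebraMap ℝ A δ + star (evC θ f) * evC θ f) := by
  have hsa := Pool.Agent.W116.RO.Mono.sa δ f
  have hco : ContinuousOn Real.log (spectrum ℝ (algebraMap ℝ (CA A) δ + star f * f)) := by
    refine Real.continuousOn_log.mono fun x hx => ?_
    have := Pool.Agent.W116.RO.Mono.spec δ f hx
    simp only [Set.mem_Ici] at this
    simp only [Set.mem_compl_iff, Set.mem_singleton_iff]
    linarith
  have h := StarAlgHomClass.map_cfc (S := ℂ) (evC (A := A) θ) Real.log _ hco (evC_cont θ) hsa (hsa.map _)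
  have h2 : evC (A := A) θ (algebraMap ℝ (CA A) δ + star f * f)
      = algebraMap ℝ A δ + star (evC θ f) * evC θ f := by
    rw [map_add, map_mul, map_star, IsScalarTower.algebraMap_apply ℝ ℂ (CA A),
      IsScalarTower.algebraMap_apply ℝ ℂ A, AlgHomClass.commutes]
  rw [h2] at h
  exact h

theorem trC_log (τ : A →L[ℂ] ℂ) (f : CA A) (δ : ℝ) (hδ : 0 < δ) :
    ld (trC τ) (algebraMap ℝ (CA A) δ + star f * f)
      = ∫ θ, ld τ (algebraMap ℝ A δ + star (evC θ f) * evC θ f) ∂mu := by
  unfold ld
  rw [trC_apply, ← RCLike.re_eq_complex_re, ← integral_re (int_tau τ _)]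
  refine integral_congr_ae (Eventually.of_forall fun θ => ?_)
  simp only
  rw [log_ev f δ hδ]

theorem ld_cont (τ : A →L[ℂ] ℂ) (f : CA A) (δ : ℝ) (hδ : 0 < δ) :
    Continuous fun θ => ld τ (algebraMap ℝ A δ + star (evC θ f) * evC θ f) := by
  have h : (fun θ => ld τ (algebraMap ℝ A δ + star (evC θ f) * evC θ f))
      = fun θ => (τ (evC θ (CFC.log (algebraMap ℝ (CA A) δ + star f * f)))).re := by
    funext θ
    rw [log_ev f δ hδ]
    rfl
  rw [h]
  exact Complex.continuous_re.comp (τ.continuous.comp (ev_cont' _))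

/-- the value of a polynomial -/
noncomputable def pv (n : ℕ) (c : ℕ → A) (w : ℂ) : A := ∑ j ∈ Finset.range (n + 1), w ^ j • c j

theorem pv_cont (n : ℕ) (c : ℕ → A) : Continuous (pv n c) := by
  unfold pv
  fun_prop

/-- the function `θ ↦ p (w e(θ))` -/
noncomputable def pf (n : ℕ) (c : ℕ → A) (w : ℂ) : CA A :=
  ∑ j ∈ Finset.range (n + 1), w ^ j • mk (⟨fun θ => ee θ ^ j • c j, by
    exact (ee_cont.pow j).smul continuous_const⟩ : C(Ci, A))

theorem pf_apply (n : ℕ) (c : ℕ → A) (w : ℂ) (θ : Ci) : evC θ (pf n c w) = pv n c (w * ee θ) := by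
  unfold pf pv
  rw [map_sum]
  refine Finset.sum_congr rfl fun j _ => ?_
  rw [map_smul, evC_mk, ContinuousMap.coe_mk, smul_smul, mul_pow]

theorem pf_diff (n : ℕ) (c : ℕ → A) : Differentiable ℂ (pf n c) := by
  unfold pf
  refine Differentiable.fun_sum fun j _ => ?_
  exact (differentiable_id.pow j).smul_const _

theorem mean (τ : A →L[ℂ] ℂ) (hτ : TrSt τ) (n : ℕ) (c : ℕ → A) (δ : ℝ) (hδ : 0 < δ) :
    ld τ (algebraMap ℝ A δ + star (c 0) * c 0)
      ≤ ∫ θ, ld τ (algebraMap ℝ A δ + star (pv n c (ee θ)) * pv n c (ee θ)) ∂mu := by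
  have key := Pool.Agent.W116.RO.Mono.t_MONO Pool.Agent.W636.RO.t_M1 Pool.Agent.W405.RO.t_M2
    (CA A) (trC τ) (trC_trst τ hτ) (pf n c) (pf_diff n c) (by
      intro δ' t w hδ'
      have e1 := trC_log τ (pf n c (Complex.exp (t * Complex.I) * w)) δ' hδ'
      have e2 := trC_log τ (pf n c w) δ' hδ'
      unfold ld at e1 e2
      rw [e1, e2]
      obtain ⟨φ, hφ⟩ : ∃ φ : Ci, ee φ = Complex.exp (t * Complex.I) := by
        refine ⟨((t / (2 * Real.pi) : ℝ) : Ci), ?_⟩
        rw [ee_coe]
        congr 1
        have : (Real.pi : ℂ) ≠ 0 := by exact_mod_cast Real.pi_ne_zero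
        push_cast
        field_simp
      have h := integral_add_right_eq_self (μ := mu)
        (fun θ => (τ (CFC.log (algebraMap ℝ A δ' + star (evC θ (pf n c w)) * evC θ (pf n c w)))).re) φ
      rw [← h]
      refine integral_congr_ae (Eventually.of_forall fun θ => ?_)
      simp only
      have e3 : evC θ (pf n c (Complex.exp (t * Complex.I) * w)) = evC (θ + φ) (pf n c w) := by
        rw [pf_apply, pf_apply, ee_add, hφ]
        congr 1
        ring
      rw [e3]) δ hδ
  have e1 := trC_log τ (pf n c 0) δ hδ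
  have e2 := trC_log τ (pf n c 1) δ hδ
  unfold ld at e1 e2 ⊢
  rw [e1, e2] at key
  have e3 : ∀ θ : Ci, evC θ (pf n c 0) = c 0 := by
    intro θ
    rw [pf_apply, zero_mul]
    unfold pv
    rw [Finset.sum_eq_single 0]
    · simp
    · intro j _ hj
      rw [zero_pow hj, zero_smul]
    · intro h
      exact absurd (Finset.mem_range.2 (Nat.succ_pos n)) h
  have e4 : ∀ θ : Ci, evC θ (pf n c 1) = pv n c (ee θ) := by
    intro θ
    rw [pf_apply, one_mul]
  simp only [e3, e4] at key
  rw [integral_const] at key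
  simpa using key

end

end Pool.Agent.J6H88.GC
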