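import Pool.Agent.J6H88.GC.Abs
import Pool.Agent.W611.RO.Exist

/-!
# Polynomial families of covariant fields
-/

set_option autoImplicit false
open scoped ComplexConjugate InnerProductSpace Topology BoundedContinuousFunction
open Filter MeasureTheory

namespace Pool.Agent.J6H88.GC
open Pool.Agent.H712R5.BO Pool.Agent.W611.RO
open Pool.Agent.J6H88.JO

section
variable {G Ω H : Type} [Group G] [Countable G] [MeasurableSpace Ω] [MulAction G Ω]
  [NormedAddCommGroup H] [InnerProductSpace ℂ H] [CompleteSpace H]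

theorem fld_hyp (P : Measure Ω) [IsProbabilityMeasure P] (b : HilbertBasis G ℂ H)
    (L : G → unitary (H →L[ℂ] H)) (hL : Reg b L) (herg : Erg G P) (T : CF (Ω := Ω) b L)
    (hT : Pos (tau P b L) (T - tau P b L T • (1 : CF (Ω := Ω) b L))) :
    ∀ᵐ ω ∂P, HasHyp (ev b L ω T) := by
  classical
  have hτ : TrSt (tau P b L) := t_TR G Ω H P b L hL herg.mp
  exact hyp_of_pos Ω P G H (CF (Ω := Ω) b L) (tau P b L) (fun ω => ev b L ω)
    (fun k => b k) (b 1) hτ (b.orthonormal.1 1) (Pool.Agent.W253.RO.total b)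
    (fun A => (Pool.Agent.W540.RO.t_N2 G Ω H P b L hL herg.mp A).1)
    (fun A => ⟨ev_int P b L A _ _, tau_apply P b L A⟩)
    (fun A k => ⟨((Pool.Agent.W540.RO.t_N2 G Ω H P b L hL herg.mp A).2 k).1,
      ((Pool.Agent.W540.RO.t_N2 G Ω H P b L hL herg.mp A).2 k).2.le⟩)
    (fun B R hB => Pool.Agent.W545.RO.t_ERG G Ω H P b L hL herg B R hB) T hT

theorem mv_shift {A : Type} [CStarAlgebra A] (τ : A →L[ℂ] ℂ) {ι σ : Type} [Fintype ι] [Fintype σ]
    (p : ι → MvPolynomial σ ℂ) (c : ι → A) (z : σ → ℂ) :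
    mv p (fun i => c i - τ (c i) • (1 : A)) z = mv p c z - τ (mv p c z) • (1 : A) := by
  unfold mv
  rw [map_sum, Finset.sum_smul, ← Finset.sum_sub_distrib]
  refine Finset.sum_congr rfl fun i _ => ?_
  rw [map_smul, smul_sub, smul_assoc]

theorem fld_main (P : Measure Ω) [IsProbabilityMeasure P] (b : HilbertBasis G ℂ H)
    (L : G → unitary (H →L[ℂ] H)) (hL : Reg b L) (herg : Erg G P)
    {ι σ : Type} [Fintype ι] [Fintype σ] (p : ι → MvPolynomial σ ℂ) (c : ι → CF (Ω := Ω) b L)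
    (z₀ : σ → ℂ)
    (h : Pos (tau P b L) (mv p c z₀ - tau P b L (mv p c z₀) • (1 : CF (Ω := Ω) b L))) :
    (∀ᵐ z : σ → ℂ, ∀ᵐ ω ∂P, HasHyp (ev b L ω (mv p c z))) ∧
      ∀ᵐ x : σ → ℝ, ∀ᵐ ω ∂P, HasHyp (ev b L ω (mv p c fun j => (x j : ℂ))) := by
  have hτ : TrSt (tau P b L) := t_TR G Ω H P b L hL herg.mp
  rw [← mv_shift] at h
  constructor
  · filter_upwards [mv_complex (tau P b L) hτ p _ z₀ h] with z hz
    rw [mv_shift] at hz
    exact fld_hyp P b L hL herg _ hz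
  · filter_upwards [mv_real (tau P b L) hτ p _ z₀ h] with x hx
    rw [mv_shift] at hx
    exact fld_hyp P b L hL herg _ hx

theorem ev_mv (b : HilbertBasis G ℂ H) (L : G → unitary (H →L[ℂ] H)) (ω : Ω)
    {ι σ : Type} [Fintype ι] [Fintype σ] (p : ι → MvPolynomial σ ℂ) (c : ι → CF (Ω := Ω) b L)
    (z : σ → ℂ) : ev b L ω (mv p c z) = ∑ i, MvPolynomial.eval z (p i) • ev b L ω (c i) := by
  unfold mv
  rw [map_sum]
  exact Finset.sum_congr rfl fun i _ => map_smul _ _ _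

end

section
variable {G Ω : Type} [Group G] [Countable G] [MeasurableSpace Ω] [MulAction G Ω]

/-- the left regular representation -/
theorem exists_L (G : Type) [Group G] [DecidableEq G] : ∃ L : G → unitary (L2 G →L[ℂ] L2 G), Reg (stb G) L ∧
    ∀ (h : G) (f : L2 G) (i : G),
      (((L h : L2 G →L[ℂ] L2 G) f : L2 G) : G → ℂ) (h * i) = (f : G → ℂ) i := by
  have hL' : ∀ h : G, ∃ U : unitary (L2 G →L[ℂ] L2 G), ∀ k,
      (U : L2 G →L[ℂ] L2 G) (stb G k) = stb G (h * k) := by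
    intro h
    obtain ⟨U, hU⟩ := (Pool.Agent.W515.RO.t_UNI G (L2 G) (stb G) (Equiv.mulLeft h) (fun _ => 1)).1
      (by simp)
    refine ⟨U, fun k => ?_⟩
    rw [hU k, one_smul]
    rfl
  choose L hLk using hL'
  have hL : Reg (stb G) L := hLk
  refine ⟨L, hL, fun h f i => ?_⟩
  rw [← stb_coord, L_inner (stb G) hL, inv_mul_cancel_left, stb_coord]

/-- a bounded measurable covariant family of operators as an element of the algebra -/
theorem exists_CF [DecidableEq G] (L : G → unitary (L2 G →L[ℂ] L2 G))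
    (hLf : ∀ (h : G) (f : L2 G) (i : G),
      (((L h : L2 G →L[ℂ] L2 G) f : L2 G) : G → ℂ) (h * i) = (f : G → ℂ) i)
    (T : Ω → (L2 G →L[ℂ] L2 G)) (C : ℝ) (hC : ∀ ω, ‖T ω‖ ≤ C)
    (hmeas : ∀ (f : L2 G) (i : G), Measurable fun ω => (T ω f : G → ℂ) i)
    (hcov : ∀ (h : G) (ω : Ω) (f f' : L2 G), (∀ i, (f' : G → ℂ) i = (f : G → ℂ) (h * i)) →
      ∀ i, (T (h • ω) f : G → ℂ) (h * i) = (T ω f' : G → ℂ) i) :
    ∃ A : CF (Ω := Ω) (stb G) L, ∀ ω, ev (stb G) L ω A = T ω := by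
  let A : Dis Ω →ᵇ (L2 G →L[ℂ] L2 G) :=
    BoundedContinuousFunction.ofNormedAddCommGroupDiscrete (α := Dis Ω) T C hC
  have hA : ∀ ω : Ω, (A : Dis Ω → (L2 G →L[ℂ] L2 G)) ω = T ω := fun ω => rfl
  have hmem : A ∈ CF (Ω := Ω) (stb G) L := by
    rw [mem_CF]
    refine ⟨fun x y => ?_, fun h ω => ?_⟩
    · have h1 : ∀ ω : Ω, ⟪x, (A : Dis Ω → (L2 G →L[ℂ] L2 G)) ω y⟫_ℂ
          = ∑' k : G, ⟪x, stb G k⟫_ℂ * (T ω y : G → ℂ) k := by
        intro ω
        rw [hA, ← (stb G).tsum_inner_mul_inner]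
        refine tsum_congr fun k => ?_
        rw [stb_coord]
      simp_rw [h1]
      exact Measurable.tsum fun k => (hmeas y k).const_mul _
    · rw [hA, hA]
      refine ContinuousLinearMap.ext fun f => lp.ext (funext fun j => ?_)
      show (T (h • ω) ((L h : L2 G →L[ℂ] L2 G) f) : G → ℂ) j
        = (((L h : L2 G →L[ℂ] L2 G) (T ω f) : L2 G) : G → ℂ) j
      have h2 := hcov h ω ((L h : L2 G →L[ℂ] L2 G) f) f (fun i => (hLf h f i).symm) (h⁻¹ * j)
      have h3 := hLf h (T ω f) (h⁻¹ * j)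
      rw [mul_inv_cancel_left] at h2 h3
      rw [h2, h3]
  exact ⟨⟨A, hmem⟩, fun ω => rfl⟩

/-- the final form for fields on `ℓ²(G)` -/
theorem fin_main [DecidableEq G] (P : Measure Ω) [IsProbabilityMeasure P] (herg : Erg G P)
    {ι σ : Type} [Fintype ι] [Fintype σ]
    (T : ι → Ω → (L2 G →L[ℂ] L2 G)) (C : ι → ℝ) (hC : ∀ i ω, ‖T i ω‖ ≤ C i)
    (hmeas : ∀ i (f : L2 G) (k : G), Measurable fun ω => (T i ω f : G → ℂ) k)
    (hcov : ∀ i (h : G) (ω : Ω) (f f' : L2 G), (∀ k, (f' : G → ℂ) k = (f : G → ℂ) (h * k)) →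
      ∀ k, (T i (h • ω) f : G → ℂ) (h * k) = (T i ω f' : G → ℂ) k)
    (p : ι → MvPolynomial σ ℂ) (z₀ : σ → ℂ) (κ : ℝ) (c₀ : ℂ)
    (hc₀ : c₀ = ∫ ω, ⟪stb G 1, (∑ i, MvPolynomial.eval z₀ (p i) • T i ω) (stb G 1)⟫_ℂ ∂P)
    (hpos : ∀ δ : ℝ, 0 < δ → κ ≤ ∫ ω, (⟪stb G 1, CFC.log (algebraMap ℝ (L2 G →L[ℂ] L2 G) δ
      + star ((∑ i, MvPolynomial.eval z₀ (p i) • T i ω) - c₀ • (1 : L2 G →L[ℂ] L2 G))
        * ((∑ i, MvPolynomial.eval z₀ (p i) • T i ω) - c₀ • (1 : L2 G →L[ℂ] L2 G)))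
          (stb G 1)⟫_ℂ).re ∂P) :
    (∀ᵐ z : σ → ℂ, ∀ᵐ ω ∂P, HasHyp (∑ i, MvPolynomial.eval z (p i) • T i ω)) ∧
      ∀ᵐ x : σ → ℝ, ∀ᵐ ω ∂P, HasHyp (∑ i, MvPolynomial.eval (fun j => (x j : ℂ)) (p i) • T i ω) := by
  obtain ⟨L, hL, hLf⟩ := exists_L G
  choose A hA using fun i => exists_CF L hLf (T i) (C i) (hC i) (hmeas i) (hcov i)
  have hev : ∀ z ω, ev (stb G) L ω (mv p A z) = ∑ i, MvPolynomial.eval z (p i) • T i ω := by
    intro z ω
    rw [ev_mv]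
    exact Finset.sum_congr rfl fun i _ => by rw [hA]
  have htau : tau P (stb G) L (mv p A z₀) = c₀ := by
    rw [tau_apply, hc₀]
    refine integral_congr_ae (Eventually.of_forall fun ω => ?_)
    simp only [hev]
  have hP : Pos (tau P (stb G) L)
      (mv p A z₀ - tau P (stb G) L (mv p A z₀) • (1 : CF (Ω := Ω) (stb G) L)) := by
    refine ⟨κ, fun δ hδ => (hpos δ hδ).trans (le_of_eq ?_)⟩
    unfold ld
    rw [tau_apply, ← RCLike.re_eq_complex_re, ← integral_re (ev_int P (stb G) L _ _ _)]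
    refine integral_congr_ae (Eventually.of_forall fun ω => ?_)
    simp only
    rw [Pool.Agent.W493.RO.Lead.ev_log (stb G) L ω _ hδ, htau]
    have e : ev (stb G) L ω (mv p A z₀ - c₀ • (1 : CF (Ω := Ω) (stb G) L))
        = (∑ i, MvPolynomial.eval z₀ (p i) • T i ω) - c₀ • (1 : L2 G →L[ℂ] L2 G) := by
      rw [map_sub, hev, map_smul, map_one]
    rw [e]
    rfl
  obtain ⟨h1, h2⟩ := fld_main P (stb G) L hL herg p A z₀ hP
  constructor
  · filter_upwards [h1] with z hz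
    filter_upwards [hz] with ω hω
    rwa [hev] at hω
  · filter_upwards [h2] with x hx
    filter_upwards [hx] with ω hω
    rwa [hev] at hω

end

end Pool.Agent.J6H88.GC
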