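import Pool.Agent.J6H88.GC.Fld

/-!
# Almost every element of the group algebra
-/

set_option autoImplicit false
open scoped ComplexConjugate InnerProductSpace Topology BoundedContinuousFunction
open Filter MeasureTheory

namespace Pool.Agent.J6H88.GC
open Pool.Agent.H712R5.BO Pool.Agent.W611.RO
open Pool.Agent.J6H88.JO

/-- the trivial action on a point -/
@[reducible] def trivAct (G : Type) [Group G] : MulAction G Unit where
  smul _ x := x
  one_smul _ := rfl
  mul_smul _ _ _ := rfl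

theorem triv_erg (G : Type) [Group G] : @Erg G Unit _ _ (trivAct G) (Measure.dirac ()) := by
  let _ := trivAct G
  refine ⟨fun g => ?_, fun B _ _ => ?_⟩
  · have : (fun ω : Unit => g • ω) = id := rfl
    rw [this]
    exact MeasurePreserving.id _
  · rcases Set.eq_empty_or_nonempty B with h | ⟨x, hx⟩
    · left
      rw [h, measure_empty]
    · right
      have : Bᶜ = ∅ := by
        ext y
        simp only [Set.mem_compl_iff, Set.mem_empty_iff_false, iff_false, not_not]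
        exact hx
      rw [this, measure_empty]

/-- the translations on the right -/
theorem exists_R (G : Type) [Group G] [DecidableEq G] : ∃ R : G → unitary (L2 G →L[ℂ] L2 G),
    (∀ g k, (R g : L2 G →L[ℂ] L2 G) (stb G k) = stb G (k * g⁻¹)) ∧
    ∀ (g : G) (f : L2 G) (i : G),
      (((R g : L2 G →L[ℂ] L2 G) f : L2 G) : G → ℂ) i = (f : G → ℂ) (i * g) := by
  have hR' : ∀ g : G, ∃ U : unitary (L2 G →L[ℂ] L2 G), ∀ k,
      (U : L2 G →L[ℂ] L2 G) (stb G k) = stb G (k * g⁻¹) := by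
    intro g
    obtain ⟨U, hU⟩ := (Pool.Agent.W515.RO.t_UNI G (L2 G) (stb G) (Equiv.mulRight g⁻¹) (fun _ => 1)).1
      (by simp)
    refine ⟨U, fun k => ?_⟩
    rw [hU k, one_smul]
    rfl
  choose R hR using hR'
  refine ⟨R, hR, fun g f i => ?_⟩
  have h1 : (R g : L2 G →L[ℂ] L2 G) (stb G (i * g)) = stb G i := by
    rw [hR, mul_inv_cancel_right]
  have hU := (Unitary.mem_iff.mp (R g).2).1
  rw [← stb_coord, ← stb_coord, ← h1]
  have h2 : ⟪(R g : L2 G →L[ℂ] L2 G) (stb G (i * g)), (R g : L2 G →L[ℂ] L2 G) f⟫_ℂ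
      = ⟪stb G (i * g), (star (R g : L2 G →L[ℂ] L2 G) * (R g : L2 G →L[ℂ] L2 G)) f⟫_ℂ := by
    rw [ContinuousLinearMap.star_eq_adjoint]
    show _ = ⟪stb G (i * g), ContinuousLinearMap.adjoint (R g : L2 G →L[ℂ] L2 G)
      ((R g : L2 G →L[ℂ] L2 G) f)⟫_ℂ
    rw [ContinuousLinearMap.adjoint_inner_right]
  rw [h2, hU]
  rfl

/-- almost every element with support `F` of the group algebra -/
theorem grp_main (G : Type) [Group G] [Countable G] (F : Finset G) (g₁ : G) (hg₁ : g₁ ∈ F)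
    (h1 : g₁ ≠ 1) :
    (∀ᵐ a : F → ℂ, ∃ T : L2 G →L[ℂ] L2 G,
      (∀ (f : L2 G) (i : G), (T f : G → ℂ) i = ∑ g : F, a g * (f : G → ℂ) (i * g)) ∧ HasHyp T) ∧
    ∀ᵐ a : F → ℝ, ∃ T : L2 G →L[ℂ] L2 G,
      (∀ (f : L2 G) (i : G), (T f : G → ℂ) i = ∑ g : F, (a g : ℂ) * (f : G → ℂ) (i * g)) ∧
      HasHyp T := by
  classical
  let _ := trivAct G
  obtain ⟨R, hR, hRf⟩ := exists_R G
  -- the formula
  have hform : ∀ (z : F → ℂ) (f : L2 G) (i : G),
      (((∑ g : F, MvPolynomial.eval z (MvPolynomial.X g : MvPolynomial F ℂ)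
        • (R g : L2 G →L[ℂ] L2 G)) f : L2 G) : G → ℂ) i = ∑ g : F, z g * (f : G → ℂ) (i * g) := by
    intro z f i
    simp only [MvPolynomial.eval_X]
    rw [_root_.sum_apply, lp.coeFn_sum, Finset.sum_apply]
    refine Finset.sum_congr rfl fun g _ => ?_
    rw [_root_.smul_apply, lp.coeFn_smul, Pi.smul_apply, hRf, smul_eq_mul]
  -- the good point
  have hz₀ : ∑ g : F, MvPolynomial.eval (Pi.single (⟨g₁, hg₁⟩ : F) (1 : ℂ))
      (MvPolynomial.X g : MvPolynomial F ℂ) • (R g : L2 G →L[ℂ] L2 G) = (R g₁ : L2 G →L[ℂ] L2 G) := by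
    rw [Finset.sum_eq_single (⟨g₁, hg₁⟩ : F)]
    · rw [MvPolynomial.eval_X, Pi.single_eq_same, one_smul]
    · intro g _ hg
      rw [MvPolynomial.eval_X, Pi.single_eq_of_ne hg, zero_smul]
    · intro h
      exact absurd (Finset.mem_univ _) h
  have hmain := fin_main (G := G) (Ω := Unit) (Measure.dirac ()) (triv_erg G) (ι := F) (σ := F)
    (fun g _ => (R g : L2 G →L[ℂ] L2 G)) (fun g => ‖(R g : L2 G →L[ℂ] L2 G)‖) (fun _ _ => le_rfl)
    (fun g f k => measurable_const) (fun g h _ f f' hf k => by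
      rw [hRf, hRf, hf, mul_assoc]) (fun g => MvPolynomial.X g) (Pi.single (⟨g₁, hg₁⟩ : F) (1 : ℂ)) 0 0 (by
      rw [hz₀, integral_dirac, hR]
      have : ⟪stb G 1, stb G (1 * g₁⁻¹)⟫_ℂ = 0 := by
        refine (stb G).orthonormal.2 ?_
        rw [one_mul]
        intro h
        exact h1 (inv_eq_one.1 h.symm)
      rw [this]) (by
      intro δ hδ
      rw [hz₀, integral_dirac, zero_smul, sub_zero, (Unitary.mem_iff.mp (R g₁).2).1]
      have h2 : algebraMap ℝ (L2 G →L[ℂ] L2 G) δ + 1 = algebraMap ℝ (L2 G →L[ℂ] L2 G) (δ + 1) := by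
        rw [map_add, map_one]
      have h3 : CFC.log (algebraMap ℝ (L2 G →L[ℂ] L2 G) (δ + 1))
          = algebraMap ℝ (L2 G →L[ℂ] L2 G) (Real.log (δ + 1)) :=
        CFC.log_algebraMap (A := L2 G →L[ℂ] L2 G) (r := δ + 1)
      have h4 : algebraMap ℝ (L2 G →L[ℂ] L2 G) (Real.log (δ + 1))
          = ((Real.log (δ + 1) : ℝ) : ℂ) • (1 : L2 G →L[ℂ] L2 G) := by
        rw [Algebra.algebraMap_eq_smul_one, Complex.coe_smul]
        rfl
      rw [h2, h3, h4]
      show 0 ≤ (⟪stb G 1, ((Real.log (δ + 1) : ℝ) : ℂ) • stb G 1⟫_ℂ).re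
      rw [inner_smul_right, inner_self_eq_norm_sq_to_K, (stb G).orthonormal.1]
      have : 0 ≤ Real.log (δ + 1) := Real.log_nonneg (by linarith)
      simpa using this)
  obtain ⟨m1, m2⟩ := hmain
  constructor
  · filter_upwards [m1] with a ha
    rw [ae_dirac_eq] at ha
    exact ⟨_, hform a, ha⟩
  · filter_upwards [m2] with a ha
    rw [ae_dirac_eq] at ha
    exact ⟨_, hform _, ha⟩

end Pool.Agent.J6H88.GC
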