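import Pool.Agent.J6H88.GC.Pos

/-!
# Positivity of the determinant almost everywhere on lines and in the plane
-/

set_option autoImplicit false
open scoped ComplexConjugate InnerProductSpace Topology ComplexOrder
open Filter MeasureTheory NormedSpace

namespace Pool.Agent.J6H88.GC
open Pool.Agent.H712R5.BO
open Pool.Agent.J6H88.JO

/-- a property which holds almost everywhere on the circle, in the coordinate `t = a + b tan (π s)` -/
theorem ae_tan (p : Ci → Prop) (h : ∀ᵐ θ ∂mu, p θ) (a b : ℝ) (hb : b ≠ 0) :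
    ∀ᵐ t : ℝ, ∃ s : ℝ, s ∈ Set.Ioo (-(1/2) : ℝ) (1/2) ∧ t = a + b * Real.tan (Real.pi * s) ∧ p (s : Ci) := by
  have h1 : ∀ᵐ θ ∂(volume : Measure Ci), p θ := by
    rw [AddCircle.volume_eq_smul_haarAddCircle]
    exact Measure.ae_smul_measure h _
  have h2 := (AddCircle.measurePreserving_mk (1 : ℝ) (-(1/2))).quasiMeasurePreserving.ae h1
  rw [ae_restrict_iff' measurableSet_Ioc] at h2
  set N : Set ℝ := {s : ℝ | s ∈ Set.Ioo (-(1/2) : ℝ) (1/2) ∧ ¬ p (s : Ci)} with hN
  have hN0 : volume N = 0 := by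
    refine measure_mono_null ?_ (ae_iff.1 h2)
    rintro s ⟨hs, hps⟩
    simp only [Set.mem_ofPred_eq, Classical.not_imp]
    refine ⟨⟨hs.1, ?_⟩, hps⟩
    have := hs.2
    linarith
  have hcos : ∀ s ∈ Set.Ioo (-(1/2) : ℝ) (1/2), 0 < Real.cos (Real.pi * s) := by
    intro s hs
    have hp := Real.pi_pos
    refine Real.cos_pos_of_mem_Ioo ⟨?_, ?_⟩ <;> nlinarith [hs.1, hs.2]
  have himg : volume ((fun s => a + b * Real.tan (Real.pi * s)) '' N) = 0 := by
    refine addHaar_image_eq_zero_of_differentiableOn_of_addHaar_eq_zero volume ?_ hN0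
    intro s hs
    have h3 : DifferentiableAt ℝ (fun s => a + b * Real.tan (Real.pi * s)) s := by
      have h4 : DifferentiableAt ℝ Real.tan (Real.pi * s) :=
        Real.differentiableAt_tan.2 (hcos s hs.1).ne'
      have h5 : DifferentiableAt ℝ (fun s : ℝ => Real.pi * s) s := by fun_prop
      exact (((h4.comp s h5).const_mul b).const_add a)
    exact h3.differentiableWithinAt
  rw [ae_iff]
  refine measure_mono_null ?_ himg
  intro t ht
  simp only [Set.mem_ofPred_eq, not_exists, not_and] at ht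
  have hp := Real.pi_pos
  set s : ℝ := Real.arctan ((t - a) / b) / Real.pi with hs
  have hs1 : s ∈ Set.Ioo (-(1/2) : ℝ) (1/2) := by
    have h6 := Real.neg_pi_div_two_lt_arctan ((t - a) / b)
    have h7 := Real.arctan_lt_pi_div_two ((t - a) / b)
    rw [hs]
    constructor
    · rw [lt_div_iff₀ hp]
      linarith
    · rw [div_lt_iff₀ hp]
      linarith
  have hs2 : t = a + b * Real.tan (Real.pi * s) := by
    rw [hs, mul_div_cancel₀ _ hp.ne', Real.tan_arctan]
    field_simp
    ring
  exact ⟨s, ⟨hs1, ht s hs1 hs2⟩, hs2.symm⟩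

theorem ae_shift (p : Ci → Prop) (h : ∀ᵐ θ ∂mu, p θ) (φ : Ci) : ∀ᵐ θ ∂mu, p (θ + φ) :=
  (measurePreserving_add_right mu φ).quasiMeasurePreserving.ae h

theorem cayley (s : ℝ) (hs : s ∈ Set.Ioo (-(1/2) : ℝ) (1/2)) :
    1 + ee (s : Ci) ≠ 0 ∧
      ee (s : Ci) - 1 = Complex.I * (Real.tan (Real.pi * s) : ℂ) * (1 + ee (s : Ci)) := by
  have hp := Real.pi_pos
  have hcos : 0 < Real.cos (Real.pi * s) := by
    refine Real.cos_pos_of_mem_Ioo ⟨?_, ?_⟩ <;> nlinarith [hs.1, hs.2]
  have hcos' : (Complex.cos (Real.pi * s : ℝ)) ≠ 0 := by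
    rw [← Complex.ofReal_cos]
    exact_mod_cast hcos.ne'
  set x : ℂ := ((Real.pi * s : ℝ) : ℂ) with hx
  have h1 : ee (s : Ci) = Complex.exp (x * Complex.I) * Complex.exp (x * Complex.I) := by
    rw [ee_coe, ← Complex.exp_add]
    congr 1
    rw [hx]
    push_cast
    ring
  have h2 : 1 + ee (s : Ci) = 2 * Complex.cos x * Complex.exp (x * Complex.I) := by
    rw [h1, Complex.cos, mul_div_cancel₀ _ (two_ne_zero), add_mul, ← Complex.exp_add,
      ← Complex.exp_add]
    rw [show -x * Complex.I + x * Complex.I = 0 by ring, Complex.exp_zero]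
    ring
  have h3 : ee (s : Ci) - 1 = 2 * Complex.sin x * Complex.I * Complex.exp (x * Complex.I) := by
    have h4 : 2 * Complex.sin x * Complex.I
        = Complex.exp (x * Complex.I) - Complex.exp (-x * Complex.I) := by
      rw [Complex.sin]
      have := Complex.I_mul_I
      linear_combination (Complex.exp (-x * Complex.I) - Complex.exp (x * Complex.I)) * this
    rw [h4, h1, sub_mul, ← Complex.exp_add, ← Complex.exp_add]
    rw [show -x * Complex.I + x * Complex.I = 0 by ring, Complex.exp_zero]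
  refine ⟨?_, ?_⟩
  · rw [h2]
    exact mul_ne_zero (mul_ne_zero two_ne_zero hcos') (Complex.exp_ne_zero _)
  · rw [h2, h3, Complex.ofReal_tan, ← hx, Complex.tan]
    field_simp

section
variable {A : Type} [CStarAlgebra A]

theorem line1 (τ : A →L[ℂ] ℂ) (hτ : TrSt τ) (n : ℕ) (c : ℕ → A) (p q : ℂ) (α β : ℝ)
    (hβ : β ≠ 0) (h : Pos τ (pv n c (p + (α + β * Complex.I) * q))) :
    ∀ᵐ t : ℝ, Pos τ (pv n c (p + t * q)) := by
  have h1 : Pos τ (hf n c (p + (α + β * Complex.I) * q) 1) := by
    rw [hf_eq n c _ 1 one_ne_zero, one_pow, one_smul, div_one]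
    exact h
  have h2 := circ τ hτ n c (p + (α + β * Complex.I) * q) (p + (α - β * Complex.I) * q) 1 1 h1
  have h3 := ae_tan (fun θ => Pos τ (hf n c (p + (α + β * Complex.I) * q
    + (p + (α - β * Complex.I) * q) * ee θ) (1 + 1 * ee θ))) h2 α β hβ
  filter_upwards [h3] with t ht
  obtain ⟨s, hs, hts, hps⟩ := ht
  obtain ⟨h4, h5⟩ := cayley s hs
  rw [one_mul, hf_eq n c _ _ h4] at hps
  have h6 := pos_of_smul τ hτ _ _ (pow_ne_zero _ h4) hps
  have h7 : (p + (α + β * Complex.I) * q + (p + (α - β * Complex.I) * q) * ee (s : Ci))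
      / (1 + ee (s : Ci)) = p + t * q := by
    rw [div_eq_iff h4, hts]
    push_cast
    have h8 : (ee (s : Ci) - 1) * Complex.I = -(Real.tan (Real.pi * s) : ℂ) * (1 + ee (s : Ci)) := by
      rw [h5]
      have := Complex.I_mul_I
      linear_combination ((Real.tan (Real.pi * s) : ℂ) * (1 + ee (s : Ci))) * this
    push_cast at h8
    linear_combination (-(β : ℂ) * q) * h8
  rwa [h7] at h6

/-- almost everywhere on every line -/
theorem line (τ : A →L[ℂ] ℂ) (hτ : TrSt τ) (n : ℕ) (c : ℕ → A) (z₀ : ℂ)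
    (h : Pos τ (pv n c z₀)) (p q : ℂ) (hq : q ≠ 0) : ∀ᵐ t : ℝ, Pos τ (pv n c (p + t * q)) := by
  -- every point is `p + (α + β i) q`
  have hrep : ∀ z : ℂ, z = p + (((z - p) / q).re + ((z - p) / q).im * Complex.I) * q := by
    intro z
    rw [Complex.re_add_im]
    field_simp
    ring
  have key : ∀ z : ℂ, ((z - p) / q).im ≠ 0 → Pos τ (pv n c z) →
      ∀ᵐ t : ℝ, Pos τ (pv n c (p + t * q)) := by
    intro z hz hpz
    refine line1 τ hτ n c p q ((z - p) / q).re ((z - p) / q).im hz ?_
    rw [← hrep]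
    exact hpz
  by_cases h0 : ((z₀ - p) / q).im = 0
  · have h1 := circ1 τ hτ n c z₀ q h
    have h2 := ae_shift (fun θ => Pos τ (pv n c (z₀ + q * ee θ))) h1 ((1/4 : ℝ) : Ci)
    obtain ⟨θ, h3, h4⟩ := (h1.and h2).exists
    have e1 : ∀ w : ℂ, ((z₀ + q * w - p) / q).im = w.im := by
      intro w
      have : (z₀ + q * w - p) / q = (z₀ - p) / q + w := by
        field_simp
        ring
      rw [this, Complex.add_im, h0, zero_add]
    have e2 : ee (θ + ((1/4 : ℝ) : Ci)) = ee θ * Complex.I := by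
      rw [ee_add, ee_coe]
      congr 1
      have : (2 * Real.pi * ((1/4 : ℝ) : ℂ) * Complex.I) = (Real.pi / 2 * Complex.I) := by
        push_cast
        ring
      rw [this, Complex.exp_pi_div_two_mul_I]
    by_cases h5 : (ee θ).im = 0
    · refine key _ ?_ h4
      rw [e1, e2]
      have h6 : (ee θ * Complex.I).im = (ee θ).re := by simp
      rw [h6]
      intro h7
      have h8 : ee θ = 0 := Complex.ext h7 h5
      have := ee_norm θ
      rw [h8, norm_zero] at this
      exact zero_ne_one this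
    · exact key _ (by rw [e1]; exact h5) h3
  · exact key z₀ h0 h

/-- almost everywhere in the plane -/
theorem plane (τ : A →L[ℂ] ℂ) (hτ : TrSt τ) (n : ℕ) (c : ℕ → A) (z₀ : ℂ)
    (h : Pos τ (pv n c z₀)) : ∀ᵐ z : ℂ, Pos τ (pv n c z) := by
  have hm := pos_meas τ hτ (pv n c) (pv_cont n c)
  have h1 : ∀ᵐ x : ℝ × ℝ, Pos τ (pv n c (Complex.measurableEquivRealProd.symm x)) := by
    have hm' : MeasurableSet {x : ℝ × ℝ | ¬ Pos τ (pv n c (Complex.measurableEquivRealProd.symm x))} :=
      (Complex.measurableEquivRealProd.symm.measurable hm).compl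
    rw [ae_iff]
    rw [Measure.volume_eq_prod, Measure.measure_prod_null hm']
    refine Eventually.of_forall fun x => ?_
    have h2 := line τ hτ n c z₀ h x Complex.I Complex.I_ne_zero
    rw [ae_iff] at h2
    refine measure_mono_null ?_ h2
    intro t ht
    have e : Complex.measurableEquivRealProd.symm (x, t) = x + t * Complex.I := by
      refine Complex.ext ?_ ?_ <;> simp [Complex.measurableEquivRealProd]
    simp only [Set.mem_preimage, Set.mem_ofPred_eq] at ht ⊢
    rwa [e] at ht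
  have h3 := Complex.volume_preserving_equiv_real_prod.quasiMeasurePreserving.ae h1
  filter_upwards [h3] with z hz
  rwa [MeasurableEquiv.symm_apply_apply] at hz

end

end Pool.Agent.J6H88.GC
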