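import Pool.Agent.J6H88.GC.Line

/-!
# Positivity of the determinant of a polynomial family in several variables
-/

set_option autoImplicit false
open scoped ComplexConjugate InnerProductSpace Topology ComplexOrder
open Filter MeasureTheory NormedSpace

namespace Pool.Agent.J6H88.GC
open Pool.Agent.H712R5.BO
open Pool.Agent.J6H88.JO

/-- a measurable set which contains almost every point of every line through `x₀` has full measure -/
theorem star_ae {V : Type} [NormedAddCommGroup V] [NormedSpace ℝ V] [FiniteDimensional ℝ V]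
    [MeasurableSpace V] [BorelSpace V] (ν : Measure V) [ν.IsAddHaarMeasure] (s : Set V)
    (hs : MeasurableSet s) (x₀ : V) (h : ∀ w : V, ∀ᵐ t : ℝ, x₀ + t • w ∈ s) : ∀ᵐ x ∂ν, x ∈ s := by
  have hm : MeasurableSet {x : V × ℝ | x₀ + x.2 • x.1 ∈ s} := by
    have hc : Continuous fun x : V × ℝ => x₀ + x.2 • x.1 := by fun_prop
    exact hc.measurable hs
  have h1 : ∀ᵐ t : ℝ, ∀ᵐ w ∂ν, x₀ + t • w ∈ s := by
    refine (Measure.ae_ae_comm (μ := ν) (ν := volume) (p := fun w t => x₀ + t • w ∈ s) hm).1 ?_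
    exact Eventually.of_forall h
  have h2 : ∀ᵐ t : ℝ, t ≠ 0 := by
    rw [ae_iff]
    simp
  obtain ⟨t, ht, ht0⟩ := (h1.and h2).exists
  have h3 : ∀ᵐ x ∂ν, x₀ + t • (t⁻¹ • x) ∈ s := by
    rw [ae_iff] at ht ⊢
    have h4 : {x : V | ¬ x₀ + t • (t⁻¹ • x) ∈ s} = (fun x => t⁻¹ • x) ⁻¹' {w : V | ¬ x₀ + t • w ∈ s} := rfl
    rw [h4, Measure.addHaar_preimage_smul ν (inv_ne_zero ht0), ht, mul_zero]
  have h5 := (measurePreserving_add_left ν (-x₀)).quasiMeasurePreserving.ae h3
  filter_upwards [h5] with x hx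
  rw [smul_smul, mul_inv_cancel₀ ht0, one_smul, add_neg_cancel_left] at hx
  exact hx

section
variable {A : Type} [CStarAlgebra A]

/-- the value of a polynomial family in several variables -/
noncomputable def mv {ι σ : Type} [Fintype ι] [Fintype σ] (p : ι → MvPolynomial σ ℂ) (c : ι → A)
    (z : σ → ℂ) : A := ∑ i, MvPolynomial.eval z (p i) • c i

theorem mv_cont {ι σ : Type} [Fintype ι] [Fintype σ] (p : ι → MvPolynomial σ ℂ) (c : ι → A) :
    Continuous (mv p c) := by
  unfold mv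
  refine continuous_finsetSum _ fun i _ => ?_
  exact (MvPolynomial.continuous_eval (p i)).smul continuous_const

theorem exists_pv' {ι : Type} [Fintype ι] (c : ι → A) (Q : ι → Polynomial ℂ) :
    ∃ (m : ℕ) (c' : ℕ → A), ∀ w, pv m c' w = ∑ i, (Q i).eval w • c i := by
  refine ⟨Finset.univ.sup fun j => (Q j).natDegree, fun k => ∑ j, (Q j).coeff k • c j, fun w => ?_⟩
  unfold pv
  simp only [Finset.smul_sum]
  rw [Finset.sum_comm]
  refine Finset.sum_congr rfl fun j hj => ?_
  rw [Polynomial.eval_eq_sum_range' (n := Finset.univ.sup (fun j => (Q j).natDegree) + 1)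
    (Nat.lt_succ_of_le (Finset.le_sup (f := fun j => (Q j).natDegree) hj)), Finset.sum_smul]
  refine Finset.sum_congr rfl fun k _ => ?_
  rw [smul_smul, mul_comm]

theorem mv_line (τ : A →L[ℂ] ℂ) (hτ : TrSt τ) {ι σ : Type} [Fintype ι] [Fintype σ]
    (p : ι → MvPolynomial σ ℂ) (c : ι → A) (a b : σ → ℂ) (t₀ : ℂ)
    (h : Pos τ (mv p c (a + t₀ • b))) : ∀ᵐ t : ℝ, Pos τ (mv p c (a + (t : ℂ) • b)) := by
  obtain ⟨m, c', hc'⟩ := exists_pv' c fun i => MvPolynomial.aeval
    (fun j => Polynomial.C (a j) + Polynomial.C (b j) * Polynomial.X) (p i)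
  have hv : ∀ w, pv m c' w = mv p c (a + w • b) := by
    intro w
    rw [hc']
    unfold mv
    refine Finset.sum_congr rfl fun i _ => ?_
    congr 1
    have h1 := MvPolynomial.map_aeval (R := ℂ)
      (fun j => Polynomial.C (a j) + Polynomial.C (b j) * Polynomial.X) (Polynomial.evalRingHom w) (p i)
    have h2 : (Polynomial.evalRingHom w) ((MvPolynomial.aeval
        fun j => Polynomial.C (a j) + Polynomial.C (b j) * Polynomial.X) (p i))
        = Polynomial.eval w ((MvPolynomial.aeval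
        fun j => Polynomial.C (a j) + Polynomial.C (b j) * Polynomial.X) (p i)) := rfl
    rw [← h2, h1, MvPolynomial.eval]
    congr 2
    · ext x
      simp
    · funext j
      simp only [Polynomial.coe_evalRingHom, Polynomial.eval_add, Polynomial.eval_C, Polynomial.eval_mul,
        Polynomial.eval_X, Pi.add_apply, Pi.smul_apply, smul_eq_mul]
      ring
  rw [← hv] at h
  have := line τ hτ m c' t₀ h 0 1 one_ne_zero
  filter_upwards [this] with t ht
  rw [← hv]
  rwa [zero_add, mul_one] at ht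

theorem mv_complex (τ : A →L[ℂ] ℂ) (hτ : TrSt τ) {ι σ : Type} [Fintype ι] [Fintype σ]
    (p : ι → MvPolynomial σ ℂ) (c : ι → A) (z₀ : σ → ℂ)
    (h : Pos τ (mv p c z₀)) : ∀ᵐ z : σ → ℂ, Pos τ (mv p c z) := by
  refine star_ae volume {z | Pos τ (mv p c z)} (pos_meas τ hτ _ (mv_cont p c)) z₀ fun w => ?_
  have h1 := mv_line τ hτ p c z₀ w 0 (by rw [zero_smul, add_zero]; exact h)
  filter_upwards [h1] with t ht
  have e : t • w = (t : ℂ) • w := by
    funext j
    simp
  show Pos τ (mv p c (z₀ + t • w))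
  rw [e]
  exact ht

theorem mv_real (τ : A →L[ℂ] ℂ) (hτ : TrSt τ) {ι σ : Type} [Fintype ι] [Fintype σ]
    (p : ι → MvPolynomial σ ℂ) (c : ι → A) (z₀ : σ → ℂ)
    (h : Pos τ (mv p c z₀)) : ∀ᵐ x : σ → ℝ, Pos τ (mv p c fun j => (x j : ℂ)) := by
  have hcont : Continuous fun x : σ → ℝ => mv p c fun j => (x j : ℂ) :=
    (mv_cont p c).comp (by fun_prop)
  -- a good real point
  have h1 := mv_line τ hτ p c (fun j => ((z₀ j).re : ℂ)) (fun j => ((z₀ j).im : ℂ)) Complex.I (by
    have : ((fun j => ((z₀ j).re : ℂ)) + Complex.I • fun j => ((z₀ j).im : ℂ)) = z₀ := by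
      funext j
      simp only [Pi.add_apply, Pi.smul_apply, smul_eq_mul]
      rw [mul_comm, Complex.re_add_im]
    rw [this]
    exact h)
  obtain ⟨t₀, ht₀⟩ := h1.exists
  refine star_ae volume {x : σ → ℝ | Pos τ (mv p c fun j => (x j : ℂ))}
    (pos_meas τ hτ _ hcont) (fun j => (z₀ j).re + t₀ * (z₀ j).im) fun w => ?_
  have h2 := mv_line τ hτ p c (fun j => (((z₀ j).re + t₀ * (z₀ j).im : ℝ) : ℂ))
    (fun j => (w j : ℂ)) 0 (by
      rw [zero_smul, add_zero]
      convert ht₀ using 2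
      funext j
      simp)
  filter_upwards [h2] with t ht
  show Pos τ (mv p c fun j => (((fun j => (z₀ j).re + t₀ * (z₀ j).im) + t • w) j : ℂ))
  convert ht using 2
  funext j
  simp

end

end Pool.Agent.J6H88.GC
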