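import Pool.Agent.J6H88.GC.Circ

/-!
# Positivity of the determinant of a polynomial family: almost everywhere on circles, lines, and in the plane
-/

set_option autoImplicit false
open scoped ComplexConjugate InnerProductSpace Topology ComplexOrder
open Filter MeasureTheory NormedSpace

namespace Pool.Agent.J6H88.GC
open Pool.Agent.H712R5.BO
open Pool.Agent.J6H88.JO

section
variable {A : Type} [CStarAlgebra A]

/-- the Fuglede-Kadison determinant of `S` is positive -/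
def Pos (τ : A →L[ℂ] ℂ) (S : A) : Prop :=
  ∃ C : ℝ, ∀ δ : ℝ, 0 < δ → C ≤ ld τ (algebraMap ℝ A δ + star S * S)

theorem sp (δ : ℝ) (hδ : 0 < δ) (S : A) : ∀ x ∈ spectrum ℝ (algebraMap ℝ A δ + star S * S), x ≠ 0 := by
  intro x hx
  have := Pool.Agent.W116.RO.Mono.spec δ S hx
  simp only [Set.mem_Ici] at this
  linarith

theorem cont_ld {X : Type} [TopologicalSpace X] (τ : A →L[ℂ] ℂ) (F : X → A) (hF : Continuous F)
    (δ : ℝ) (hδ : 0 < δ) : Continuous fun x => ld τ (algebraMap ℝ A δ + star (F x) * F x) := by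
  unfold ld
  refine Complex.continuous_re.comp (τ.continuous.comp ?_)
  have h1 : Continuous fun x => algebraMap ℝ A δ + star (F x) * F x := by fun_prop
  have hm : ∀ x, (algebraMap ℝ A δ + star (F x) * F x) ∈ {a : A | IsSelfAdjoint a ∧ IsUnit a} := by
    intro x
    refine ⟨Pool.Agent.W116.RO.Mono.sa δ (F x), ?_⟩
    rw [← spectrum.zero_notMem_iff ℝ]
    intro h
    exact sp δ hδ (F x) 0 h rfl
  exact (CFC.continuousOn_log (A := A)).comp_continuous h1 hm

theorem ld_anti (τ : A →L[ℂ] ℂ) (hτ : TrSt τ) (S : A) {δ δ' : ℝ} (hδ : 0 < δ) (h : δ ≤ δ') :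
    ld τ (algebraMap ℝ A δ + star S * S) ≤ ld τ (algebraMap ℝ A δ' + star S * S) := by
  let _ := CStarAlgebra.spectralOrder A
  have := CStarAlgebra.spectralOrderedRing A
  exact ld_mono τ hτ (sp_add hδ S) (add_le_add_left (algebraMap_mono h) _)

theorem pos_iff (τ : A →L[ℂ] ℂ) (hτ : TrSt τ) (S : A) :
    Pos τ S ↔ ∃ N : ℕ, ∀ k : ℕ, -(N : ℝ) ≤ ld τ (algebraMap ℝ A (1 / ((k : ℝ) + 1)) + star S * S) := by
  constructor
  · rintro ⟨C, hC⟩
    obtain ⟨N, hN⟩ := exists_nat_ge (-C)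
    exact ⟨N, fun k => by
      have := hC (1 / ((k : ℝ) + 1)) (by positivity)
      linarith⟩
  · rintro ⟨N, hN⟩
    refine ⟨-(N : ℝ), fun δ hδ => ?_⟩
    obtain ⟨k, hk⟩ := exists_nat_one_div_lt hδ
    exact (hN k).trans (ld_anti τ hτ S (by positivity) hk.le)

theorem pos_meas {X : Type} [TopologicalSpace X] [MeasurableSpace X] [BorelSpace X]
    (τ : A →L[ℂ] ℂ) (hτ : TrSt τ) (F : X → A) (hF : Continuous F) :
    MeasurableSet {x | Pos τ (F x)} := by
  have : {x | Pos τ (F x)} = ⋃ N : ℕ, ⋂ k : ℕ,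
      {x | -(N : ℝ) ≤ ld τ (algebraMap ℝ A (1 / ((k : ℝ) + 1)) + star (F x) * F x)} := by
    ext x
    simp only [Set.mem_ofPred_eq, Set.mem_iUnion, Set.mem_iInter]
    exact pos_iff τ hτ (F x)
  rw [this]
  refine MeasurableSet.iUnion fun N => MeasurableSet.iInter fun k => ?_
  exact (isClosed_le continuous_const (cont_ld τ F hF _ (by positivity))).measurableSet

/-- positivity almost everywhere on the circle -/
theorem ae_pos (τ : A →L[ℂ] ℂ) (hτ : TrSt τ) (n : ℕ) (c : ℕ → A) (h : Pos τ (c 0)) :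
    ∀ᵐ θ ∂mu, Pos τ (pv n c (ee θ)) := by
  obtain ⟨C, hC⟩ := h
  have hd : ∀ k : ℕ, (0 : ℝ) < 1 / ((k : ℝ) + 1) := fun k => by positivity
  obtain ⟨g, hg⟩ : ∃ g : ℕ → Ci → ℝ, g = fun (k : ℕ) (θ : Ci) =>
    ld τ (algebraMap ℝ A (1 / ((k : ℝ) + 1)) + star (pv n c (ee θ)) * pv n c (ee θ)) := ⟨_, rfl⟩
  have hgc : ∀ k, Continuous (g k) := by
    intro k
    rw [hg]
    exact cont_ld τ (fun θ => pv n c (ee θ)) ((pv_cont n c).comp ee_cont) _ (hd k)
  have hgi : ∀ k, Integrable (g k) mu := fun k =>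
    (hgc k).integrable_of_hasCompactSupport (HasCompactSupport.of_compactSpace _)
  have hanti : ∀ θ, Antitone fun k => g k θ := by
    intro θ k l hkl
    rw [hg]
    refine ld_anti τ hτ _ (hd l) ?_
    refine one_div_le_one_div_of_le (by positivity) ?_
    have : (k : ℝ) ≤ l := by exact_mod_cast hkl
    linarith
  have hint : ∀ k, C ≤ ∫ θ, g k θ ∂mu := by
    intro k
    rw [hg]
    exact (hC _ (hd k)).trans (mean τ hτ n c _ (hd k))
  have hl : ∀ k, ∫⁻ θ, ENNReal.ofReal (g 0 θ - g k θ) ∂mu ≤ ENNReal.ofReal (∫ θ, g 0 θ ∂mu - C) := by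
    intro k
    have h0 : 0 ≤ᵐ[mu] fun θ => g 0 θ - g k θ :=
      Eventually.of_forall fun θ => sub_nonneg.2 (hanti θ (Nat.zero_le k))
    have h1 := ofReal_integral_eq_lintegral_ofReal (f := fun θ => g 0 θ - g k θ)
      ((hgi 0).sub (hgi k)) h0
    rw [← h1]
    refine ENNReal.ofReal_le_ofReal ?_
    rw [integral_sub (hgi 0) (hgi k)]
    linarith [hint k]
  have hsup : ∫⁻ θ, ⨆ k, ENNReal.ofReal (g 0 θ - g k θ) ∂mu ≤ ENNReal.ofReal (∫ θ, g 0 θ ∂mu - C) := by
    rw [lintegral_iSup]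
    · exact iSup_le hl
    · intro k
      exact ((hgc 0).sub (hgc k)).measurable.ennreal_ofReal
    · intro k l hkl θ
      exact ENNReal.ofReal_le_ofReal (sub_le_sub_left (hanti θ hkl) _)
  have hfin := ae_lt_top (μ := mu) (f := fun θ => ⨆ k, ENNReal.ofReal (g 0 θ - g k θ)) (by
    refine Measurable.iSup fun k => ?_
    exact ((hgc 0).sub (hgc k)).measurable.ennreal_ofReal) (hsup.trans_lt ENNReal.ofReal_lt_top).ne
  filter_upwards [hfin] with θ hθ
  rw [pos_iff τ hτ]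
  set M : ℝ := (⨆ k, ENNReal.ofReal (g 0 θ - g k θ)).toReal with hM
  have hb : ∀ k, g 0 θ - M ≤ g k θ := by
    intro k
    have h1 : ENNReal.ofReal (g 0 θ - g k θ) ≤ ⨆ k, ENNReal.ofReal (g 0 θ - g k θ) :=
      le_iSup (fun k => ENNReal.ofReal (g 0 θ - g k θ)) k
    have h2 := ENNReal.toReal_mono hθ.ne h1
    rw [ENNReal.toReal_ofReal (sub_nonneg.2 (hanti θ (Nat.zero_le k)))] at h2
    linarith
  obtain ⟨N, hN⟩ := exists_nat_ge (M - g 0 θ)
  refine ⟨N, fun k => ?_⟩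
  have h1 := hb k
  rw [hg] at h1 hN
  simp only at h1 hN ⊢
  linarith

theorem ld_smul (τ : A →L[ℂ] ℂ) (hτ : TrSt τ) (S : A) (z : ℂ) (hz : z ≠ 0) (δ : ℝ) (hδ : 0 < δ) :
    ld τ (algebraMap ℝ A δ + star (z • S) * (z • S))
      = Real.log (‖z‖ ^ 2) + ld τ (algebraMap ℝ A (δ / ‖z‖ ^ 2) + star S * S) := by
  have hr : 0 < ‖z‖ ^ 2 := by positivity
  have e1 : algebraMap ℝ A δ + star (z • S) * (z • S)
      = (‖z‖ ^ 2) • (algebraMap ℝ A (δ / ‖z‖ ^ 2) + star S * S) := by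
    rw [smul_add, star_smul, smul_mul_smul_comm, RCLike.star_def, ← Complex.normSq_eq_conj_mul_self,
      Complex.normSq_eq_norm_sq, Complex.coe_smul, Algebra.algebraMap_eq_smul_one,
      Algebra.algebraMap_eq_smul_one, smul_smul, mul_div_cancel₀ _ hr.ne']
  have e2 := CFC.log_smul (r := ‖z‖ ^ 2) (algebraMap ℝ A (δ / ‖z‖ ^ 2) + star S * S)
    (sp _ (by positivity) S) hr.ne' (Pool.Agent.W116.RO.Mono.sa _ _)
  unfold ld
  rw [e1, e2, map_add, Complex.add_re, Algebra.algebraMap_eq_smul_one, ← Complex.coe_smul, map_smul,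
    hτ.one]
  simp

theorem pos_smul (τ : A →L[ℂ] ℂ) (hτ : TrSt τ) (S : A) (z : ℂ) (hz : z ≠ 0) (h : Pos τ S) :
    Pos τ (z • S) := by
  obtain ⟨C, hC⟩ := h
  refine ⟨Real.log (‖z‖ ^ 2) + C, fun δ hδ => ?_⟩
  rw [ld_smul τ hτ S z hz δ hδ]
  have := hC (δ / ‖z‖ ^ 2) (by positivity)
  linarith

theorem pos_of_smul (τ : A →L[ℂ] ℂ) (hτ : TrSt τ) (S : A) (z : ℂ) (hz : z ≠ 0) (h : Pos τ (z • S)) :
    Pos τ S := by
  have := pos_smul τ hτ (z • S) z⁻¹ (inv_ne_zero hz) h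
  rwa [smul_smul, inv_mul_cancel₀ hz, one_smul] at this

/-- scalar polynomial combinations are polynomial families -/
theorem exists_pv (n : ℕ) (c : ℕ → A) (Q : ℕ → Polynomial ℂ) :
    ∃ (m : ℕ) (c' : ℕ → A), ∀ w, pv m c' w = ∑ j ∈ Finset.range (n + 1), (Q j).eval w • c j := by
  refine ⟨(Finset.range (n + 1)).sup fun j => (Q j).natDegree,
    fun k => ∑ j ∈ Finset.range (n + 1), (Q j).coeff k • c j, fun w => ?_⟩
  unfold pv
  simp only [Finset.smul_sum]
  rw [Finset.sum_comm]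
  refine Finset.sum_congr rfl fun j hj => ?_
  rw [Polynomial.eval_eq_sum_range' (n := (Finset.range (n + 1)).sup (fun j => (Q j).natDegree) + 1)
    (Nat.lt_succ_of_le (Finset.le_sup (f := fun j => (Q j).natDegree) hj)), Finset.sum_smul]
  refine Finset.sum_congr rfl fun k _ => ?_
  rw [smul_smul, mul_comm]

/-- the homogeneous form -/
noncomputable def hf (n : ℕ) (c : ℕ → A) (x y : ℂ) : A :=
  ∑ j ∈ Finset.range (n + 1), (x ^ j * y ^ (n - j)) • c j

theorem hf_eq (n : ℕ) (c : ℕ → A) (x y : ℂ) (hy : y ≠ 0) : hf n c x y = y ^ n • pv n c (x / y) := by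
  unfold hf pv
  rw [Finset.smul_sum]
  refine Finset.sum_congr rfl fun j hj => ?_
  rw [smul_smul]
  congr 1
  have hjn : j ≤ n := Nat.lt_succ_iff.1 (Finset.mem_range.1 hj)
  have : y ^ n = y ^ j * y ^ (n - j) := by rw [← pow_add, Nat.add_sub_cancel' hjn]
  rw [this, div_pow]
  field_simp

theorem pv_zero (n : ℕ) (c : ℕ → A) : pv n c 0 = c 0 := by
  unfold pv
  rw [Finset.sum_eq_single 0]
  · simp
  · intro j _ hj
    rw [zero_pow hj, zero_smul]
  · intro h
    exact absurd (Finset.mem_range.2 (Nat.succ_pos n)) h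

/-- the general circle lemma: `x(w), y(w)` linear -/
theorem circ (τ : A →L[ℂ] ℂ) (hτ : TrSt τ) (n : ℕ) (c : ℕ → A) (a b a' b' : ℂ)
    (h : Pos τ (hf n c a a')) : ∀ᵐ θ ∂mu, Pos τ (hf n c (a + b * ee θ) (a' + b' * ee θ)) := by
  obtain ⟨m, c', hc'⟩ := exists_pv n c fun j =>
    (Polynomial.C a + Polynomial.C b * Polynomial.X) ^ j
      * (Polynomial.C a' + Polynomial.C b' * Polynomial.X) ^ (n - j)
  have hv : ∀ w, pv m c' w = hf n c (a + b * w) (a' + b' * w) := by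
    intro w
    rw [hc']
    unfold hf
    refine Finset.sum_congr rfl fun j _ => ?_
    simp
  have h0 : Pos τ (c' 0) := by
    have := hv 0
    rw [pv_zero, mul_zero, mul_zero, add_zero, add_zero] at this
    rw [this]
    exact h
  filter_upwards [ae_pos τ hτ m c' h0] with θ hθ
  rw [← hv]
  exact hθ

theorem circ1 (τ : A →L[ℂ] ℂ) (hτ : TrSt τ) (n : ℕ) (c : ℕ → A) (z₀ r : ℂ)
    (h : Pos τ (pv n c z₀)) : ∀ᵐ θ ∂mu, Pos τ (pv n c (z₀ + r * ee θ)) := by
  have e : ∀ z, pv n c z = hf n c z 1 := by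
    intro z
    rw [hf_eq n c z 1 one_ne_zero, one_pow, one_smul, div_one]
  rw [e] at h
  filter_upwards [circ τ hτ n c z₀ r 1 0 h] with θ hθ
  rw [e]
  rwa [zero_mul, add_zero] at hθ

/-- from the leading coefficient to a point -/
theorem exists_point (τ : A →L[ℂ] ℂ) (hτ : TrSt τ) (n : ℕ) (c : ℕ → A) (h : Pos τ (c n)) :
    ∃ z, Pos τ (pv n c z) := by
  have h0 : Pos τ (hf n c 1 0) := by
    have : hf n c 1 0 = c n := by
      unfold hf
      rw [Finset.sum_eq_single n]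
      · simp
      · intro j hj hjn
        have : n - j ≠ 0 := by
          have := Finset.mem_range.1 hj
          omega
        rw [zero_pow this, mul_zero, zero_smul]
      · intro h
        exact absurd (Finset.mem_range.2 (Nat.lt_succ_self n)) h
    rw [this]
    exact h
  obtain ⟨θ, hθ⟩ := (circ τ hτ n c 1 0 0 1 h0).exists
  have hne : ee θ ≠ 0 := by
    intro h
    have := ee_norm θ
    rw [h, norm_zero] at this
    exact zero_ne_one this
  rw [zero_mul, add_zero, zero_add, one_mul, hf_eq n c _ _ hne] at hθ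
  exact ⟨_, pos_of_smul τ hτ _ _ (pow_ne_zero _ hne) hθ⟩

end

end Pool.Agent.J6H88.GC
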